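import Pool.Agent.Work.MP_c36330_co.SQ.Main

set_option autoImplicit false

/-!
# Square energies of maximal planar graphs

Q1 of MP_c36330_co for maximal planar graphs of maximum degree at most 14, for those with at most 23 vertices,
for all those with `∑ d(v)^2 ≤ 60.75 n - 162`, and for all those with `4 ∑ d(v)^2 + 216 ≤ 27 (n + 4 t)`, `t` the
number of triangles.

Proof: `(∑ λ (λ + 3)^2)^2 ≤ s^+ ∑ (λ + 3)^4`; the first three moments are `0`, `6 (n - 2)`, `6 t` with
`t ≥ 2 (n - 2)`, and the fourth moment (closed walks of length four) is bounded by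
`4 ∑ d^2 - 48 (n - 2) + 12 t` with Euler's formula for the subgraphs spanned by a vertex, its neighbours and
the vertices at distance two.
-/

namespace Pool.Agent.Results.MP_c36330_co.DegreeSquares

open Pool.Agent.Work.MP_c36330_co.SQ

theorem result (V : Type) [Fintype V] (G : SimpleGraph V) (hG : MaxPlanar G)
    (h : (∀ v, dg G v ≤ 14) ∨ Fintype.card V ≤ 23 ∨ 4 * qd G + 648 ≤ 243 * Fintype.card V ∨
      4 * qd G + 216 ≤ 27 * (Fintype.card V + 4 * ntri G)) :
    3 * ((Fintype.card V : ℝ) - 2) ≤ sPos G ∧ sNeg G ≤ 3 * ((Fintype.card V : ℝ) - 2) := by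
  have key : 3 * ((Fintype.card V : ℝ) - 2) ≤ sPos G := by
    rcases h with h | h | h | h
    · exact q1_deg G hG h
    · exact q1_small G hG h
    · by_cases hn : 4 ≤ Fintype.card V
      · refine q1_of G hG hn ?_
        have h' : 4 * (qd G : ℝ) + 648 ≤ 243 * (Fintype.card V : ℝ) := by exact_mod_cast h
        have h1 : 2 * (Fintype.card V : ℝ) ≤ ntri G + 4 := by exact_mod_cast two_le G hG hn
        linarith
      · exact q1_small G hG (by omega)
    · by_cases hn : 4 ≤ Fintype.card V
      · refine q1_of G hG hn ?_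
        have h' : 4 * (qd G : ℝ) + 216 ≤ 27 * ((Fintype.card V : ℝ) + 4 * (ntri G : ℝ)) := by
          exact_mod_cast h
        linarith
      · exact q1_small G hG (by omega)
  exact ⟨key, q1_iff G hG key⟩

end Pool.Agent.Results.MP_c36330_co.DegreeSquares
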